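import Pool.Agent.Lib.MP_27bb56_h90.Link

/-!
Arrangements of 3, 4 and 5 lines with 1, 2 and 5 triangles of maximum area.
-/

namespace Pool.Agent.MP27bb56

lemma ln_ne {a₁ b₁ c₁ a₂ b₂ c₂ : ℝ} (h : D a₁ b₁ a₂ b₂ ≠ 0) : ln a₁ b₁ c₁ ≠ ln a₂ b₂ c₂ := by
  intro e
  have h1 := inter_ln (c₁ := c₁) (c₂ := c₂) h
  rw [e] at h1
  have hn : a₂ ≠ 0 ∨ b₂ ≠ 0 := by
    by_contra hc
    push Not at hc
    apply h
    unfold D
    rw [hc.1, hc.2]
    ring
  exact D_ne hn h1 (by unfold D; ring)

/-- the area inequality for three lines -/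
def SI {N : ℕ} (a b c : Fin N → ℝ) (A : ℝ) (i j k : Fin N) : Prop :=
  Del (a i) (b i) (c i) (a j) (b j) (c j) (a k) (b k) (c k) ^ 2 ≤
    A * (2 * |D (a i) (b i) (a j) (b j) * D (a i) (b i) (a k) (b k) * D (a j) (b j) (a k) (b k)|)

lemma SI.swap12 {N : ℕ} {a b c : Fin N → ℝ} {A : ℝ} {i j k : Fin N} (h : SI a b c A i j k) :
    SI a b c A j i k := by
  unfold SI at *
  have e1 : Del (a j) (b j) (c j) (a i) (b i) (c i) (a k) (b k) (c k) ^ 2 =
      Del (a i) (b i) (c i) (a j) (b j) (c j) (a k) (b k) (c k) ^ 2 := by unfold Del; ring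
  have e2 : D (a j) (b j) (a i) (b i) * D (a j) (b j) (a k) (b k) * D (a i) (b i) (a k) (b k) =
      -(D (a i) (b i) (a j) (b j) * D (a i) (b i) (a k) (b k) * D (a j) (b j) (a k) (b k)) := by
    unfold D; ring
  rw [e1, e2, abs_neg]
  exact h

lemma SI.swap23 {N : ℕ} {a b c : Fin N → ℝ} {A : ℝ} {i j k : Fin N} (h : SI a b c A i j k) :
    SI a b c A i k j := by
  unfold SI at *
  have e1 : Del (a i) (b i) (c i) (a k) (b k) (c k) (a j) (b j) (c j) ^ 2 =
      Del (a i) (b i) (c i) (a j) (b j) (c j) (a k) (b k) (c k) ^ 2 := by unfold Del; ring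
  have e2 : D (a i) (b i) (a k) (b k) * D (a i) (b i) (a j) (b j) * D (a k) (b k) (a j) (b j) =
      -(D (a i) (b i) (a j) (b j) * D (a i) (b i) (a k) (b k) * D (a j) (b j) (a k) (b k)) := by
    unfold D; ring
  rw [e1, e2, abs_neg]
  exact h

lemma SI.all {N : ℕ} {a b c : Fin N → ℝ} {A : ℝ}
    (h : ∀ i j k : Fin N, i < j → j < k → SI a b c A i j k) {i j k : Fin N} (hij : i ≠ j)
    (hik : i ≠ k) (hjk : j ≠ k) : SI a b c A i j k := by
  rcases lt_or_gt_of_ne hij with h1 | h1 <;> rcases lt_or_gt_of_ne hik with h2 | h2 <;>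
    rcases lt_or_gt_of_ne hjk with h3 | h3
  · exact h i j k h1 h3
  · exact (h i k j h2 h3).swap23
  · exact absurd (h1.trans h3) (not_lt.mpr h2.le)
  · exact ((h k i j h2 h1).swap12).swap23
  · exact ((h j i k h1 h2).swap12)
  · exact absurd (h3.trans h1) (not_lt.mpr h2.le)
  · exact ((h j k i h3 h2).swap23).swap12
  · exact (((h k j i h3 h1).swap23).swap12).swap23

open Classical in
theorem ex_gen {N : ℕ} (a b c : Fin N → ℝ) (A : ℝ) (hn : ∀ i, a i ≠ 0 ∨ b i ≠ 0)
    (hD : ∀ i j : Fin N, i < j → D (a i) (b i) (a j) (b j) ≠ 0)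
    (hle : ∀ i j k : Fin N, i < j → j < k → SI a b c A i j k)
    (T : Finset (Finset (Fin N))) (hTne : T.Nonempty)
    (hT : ∀ s ∈ T, ∃ i j k : Fin N, i < j ∧ j < k ∧ s = {i, j, k} ∧
      Del (a i) (b i) (c i) (a j) (b j) (c j) (a k) (b k) (c k) ≠ 0 ∧
      Del (a i) (b i) (c i) (a j) (b j) (c j) (a k) (b k) (c k) ^ 2 =
        A * (2 * |D (a i) (b i) (a j) (b j) * D (a i) (b i) (a k) (b k) *
          D (a j) (b j) (a k) (b k)|)) :
    ∃ L : Finset (Set (ℝ × ℝ)), L.card = N ∧ (∀ l ∈ L, IsLine l) ∧ IsMaxArea L A ∧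
      T.card ≤ (maxTriples L A).card := by
  set f : Fin N → Set (ℝ × ℝ) := fun i => ln (a i) (b i) (c i) with hf
  have hinj : Function.Injective f := by
    intro i j hij
    by_contra hne
    rcases lt_or_gt_of_ne hne with h | h
    · exact ln_ne (hD i j h) hij
    · exact ln_ne (hD j i h) hij.symm
  have key : ∀ i j k : Fin N, i < j → j < k →
      Del (a i) (b i) (c i) (a j) (b j) (c j) (a k) (b k) (c k) ≠ 0 →
      Del (a i) (b i) (c i) (a j) (b j) (c j) (a k) (b k) (c k) ^ 2 =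
        A * (2 * |D (a i) (b i) (a j) (b j) * D (a i) (b i) (a k) (b k) *
          D (a j) (b j) (a k) (b k)|) → TriangleArea (f i) (f j) (f k) A := by
    intro i j k hij hjk hdel heq
    have d1 := hD i j hij
    have d2 := hD i k (hij.trans hjk)
    have d3 := hD j k hjk
    obtain ⟨B, hB, hBe⟩ := exists_area (c₁ := c i) (c₂ := c j) (c₃ := c k) d1 d2 d3 hdel
    rw [heq] at hBe
    have hpos : 0 < 2 * |D (a i) (b i) (a j) (b j) * D (a i) (b i) (a k) (b k) *
        D (a j) (b j) (a k) (b k)| :=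
      mul_pos two_pos (abs_pos.mpr (mul_ne_zero (mul_ne_zero d1 d2) d3))
    have : B = A := mul_right_cancel₀ hpos.ne' hBe
    rw [← this]
    exact hB
  refine ⟨Finset.univ.image f, ?_, ?_, ⟨?_, ?_⟩, ?_⟩
  · rw [Finset.card_image_of_injective _ hinj, Finset.card_univ, Fintype.card_fin]
  · intro l hl
    obtain ⟨i, -, rfl⟩ := Finset.mem_image.mp hl
    exact ⟨a i, b i, c i, hn i, rfl⟩
  · obtain ⟨s, hs⟩ := hTne
    obtain ⟨i, j, k, hij, hjk, -, hdel, heq⟩ := hT s hs
    exact ⟨f i, Finset.mem_image_of_mem _ (Finset.mem_univ _), f j,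
      Finset.mem_image_of_mem _ (Finset.mem_univ _), f k,
      Finset.mem_image_of_mem _ (Finset.mem_univ _), key i j k hij hjk hdel heq⟩
  · intro l₁ h₁ l₂ h₂ l₃ h₃ B hB
    obtain ⟨i, -, rfl⟩ := Finset.mem_image.mp h₁
    obtain ⟨j, -, rfl⟩ := Finset.mem_image.mp h₂
    obtain ⟨k, -, rfl⟩ := Finset.mem_image.mp h₃
    obtain ⟨d1, d2, d3, hdel, he⟩ := area_of (hn j) (hn k) hB
    have n1 : i ≠ j := by rintro rfl; exact d1 (by unfold D; ring)
    have n2 : i ≠ k := by rintro rfl; exact d2 (by unfold D; ring)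
    have n3 : j ≠ k := by rintro rfl; exact d3 (by unfold D; ring)
    have hs := SI.all hle n1 n2 n3
    unfold SI at hs
    rw [← he] at hs
    have hpos : 0 < 2 * |D (a i) (b i) (a j) (b j) * D (a i) (b i) (a k) (b k) *
        D (a j) (b j) (a k) (b k)| :=
      mul_pos two_pos (abs_pos.mpr (mul_ne_zero (mul_ne_zero d1 d2) d3))
    exact le_of_mul_le_mul_right hs hpos
  · rw [← Finset.card_image_of_injective T (Finset.image_injective hinj)]
    apply Finset.card_le_card
    intro t ht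
    obtain ⟨s, hs, rfl⟩ := Finset.mem_image.mp ht
    obtain ⟨i, j, k, hij, hjk, hsd, hdel, heq⟩ := hT s hs
    unfold maxTriples
    rw [Finset.mem_filter, Finset.mem_powersetCard]
    refine ⟨⟨Finset.image_subset_image (Finset.subset_univ _), ?_⟩, f i, f j, f k, ?_,
      key i j k hij hjk hdel heq⟩
    · rw [Finset.card_image_of_injective _ hinj, hsd, Finset.card_eq_three]
      exact ⟨i, j, k, hij.ne, (hij.trans hjk).ne, hjk.ne, rfl⟩
    · rw [hsd]
      simp [Finset.image_insert, Finset.image_singleton]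

theorem ex3_le : ∃ L : Finset (Set (ℝ × ℝ)), ∃ A, L.card = 3 ∧ (∀ l ∈ L, IsLine l) ∧
    IsMaxArea L A ∧ 1 ≤ (maxTriples L A).card := by
  obtain ⟨L, h1, h2, h3, h4⟩ := ex_gen (N := 3) ![1, 0, 1] ![0, 1, 1] ![0, 0, 1] (1 / 2)
    (by intro i; fin_cases i <;> simp)
    (by intro i j hij; fin_cases i <;> fin_cases j <;> simp [D] at hij ⊢)
    (by
      intro i j k hij hjk
      fin_cases i <;> fin_cases j <;> fin_cases k <;> simp [SI, D, Del] at hij hjk ⊢)
    {{0, 1, 2}} (Finset.singleton_nonempty _)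
    (by
      intro s hs
      rw [Finset.mem_singleton] at hs
      refine ⟨0, 1, 2, by decide, by decide, hs, ?_, ?_⟩ <;> simp [D, Del])
  exact ⟨L, 1 / 2, h1, h2, h3, by simpa using h4⟩

theorem ex4_le : ∃ L : Finset (Set (ℝ × ℝ)), ∃ A, L.card = 4 ∧ (∀ l ∈ L, IsLine l) ∧
    IsMaxArea L A ∧ 2 ≤ (maxTriples L A).card := by
  obtain ⟨L, h1, h2, h3, h4⟩ := ex_gen (N := 4) ![1, 0, 1, 1] ![0, 1, 1, 4] ![0, 0, 2, 4] 2
    (by intro i; fin_cases i <;> simp)
    (by
      intro i j hij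
      fin_cases i <;> fin_cases j <;> first
        | exact absurd hij (by decide)
        | norm_num [D])
    (by
      intro i j k hij hjk
      fin_cases i <;> fin_cases j <;> fin_cases k <;> first
        | exact absurd hij (by decide)
        | exact absurd hjk (by decide)
        | norm_num [SI, D, Del, abs_of_nonneg, abs_of_neg])
    {{0, 1, 2}, {0, 1, 3}} ⟨_, Finset.mem_insert_self _ _⟩
    (by
      intro s hs
      rw [Finset.mem_insert, Finset.mem_singleton] at hs
      rcases hs with hs | hs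
      · refine ⟨0, 1, 2, by decide, by decide, hs, ?_, ?_⟩ <;> (simp [D, Del] <;> norm_num)
      · refine ⟨0, 1, 3, by decide, by decide, hs, ?_, ?_⟩ <;> (simp [D, Del] <;> norm_num))
  refine ⟨L, 2, h1, h2, h3, le_trans (le_of_eq ?_) h4⟩
  decide

theorem ex5_le : ∃ L : Finset (Set (ℝ × ℝ)), ∃ A, L.card = 5 ∧ (∀ l ∈ L, IsLine l) ∧
    IsMaxArea L A ∧ 5 ≤ (maxTriples L A).card := by
  obtain ⟨g, hg, hg1⟩ : ∃ g : ℝ, g ^ 2 = g + 1 ∧ 1 < g :=
    ⟨Real.goldenRatio, Real.goldenRatio_sq, Real.one_lt_goldenRatio⟩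
  have h012 : Del 1 0 0 0 1 0 g (-1) g ^ 2 ≤
      (3 * g + 2) / 2 * (2 * |D 1 0 0 1 * D 1 0 g (-1) * D 0 1 g (-1)|) := by
    have e1 : Del 1 0 0 0 1 0 g (-1) g = (1) * g := by
      unfold Del
      linear_combination (0) * hg
    have e2 : D 1 0 0 1 * D 1 0 g (-1) * D 0 1 g (-1) = ((1) * g) := by
      unfold D
      linear_combination (0) * hg
    have e3 : |((1) * g : ℝ)| = (1) * g := by
      exact abs_of_pos (by linarith)
    rw [e1, e2, e3]
    have e4 : (3 * g + 2) / 2 * (2 * ((1) * g)) - ((1) * g) ^ 2 = (2) + (4) * g := by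
      linear_combination ((2)) * hg
    linarith
  have h013 : Del 1 0 0 0 1 0 (-1) g g ^ 2 ≤
      (3 * g + 2) / 2 * (2 * |D 1 0 0 1 * D 1 0 (-1) g * D 0 1 (-1) g|) := by
    have e1 : Del 1 0 0 0 1 0 (-1) g g = (1) * g := by
      unfold Del
      linear_combination (0) * hg
    have e2 : D 1 0 0 1 * D 1 0 (-1) g * D 0 1 (-1) g = ((1) * g) := by
      unfold D
      linear_combination (0) * hg
    have e3 : |((1) * g : ℝ)| = (1) * g := by
      exact abs_of_pos (by linarith)
    rw [e1, e2, e3]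
    have e4 : (3 * g + 2) / 2 * (2 * ((1) * g)) - ((1) * g) ^ 2 = (2) + (4) * g := by
      linear_combination ((2)) * hg
    linarith
  have d014 : Del 1 0 0 0 1 0 1 1 (g + 1) ≠ 0 := by
    unfold Del
    intro h0
    have e1 : (1) + (1) * g = 0 := by linear_combination h0 - (0) * hg
    linarith
  have h014 : Del 1 0 0 0 1 0 1 1 (g + 1) ^ 2 =
      (3 * g + 2) / 2 * (2 * |D 1 0 0 1 * D 1 0 1 1 * D 0 1 1 1|) := by
    have e1 : Del 1 0 0 0 1 0 1 1 (g + 1) = (1) + (1) * g := by
      unfold Del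
      linear_combination (0) * hg
    have e2 : D 1 0 0 1 * D 1 0 1 1 * D 0 1 1 1 = -((1)) := by
      unfold D
      linear_combination (0) * hg
    have e3 : |-((1) : ℝ)| = (1) := by
      rw [abs_neg]
      exact abs_of_pos (by linarith)
    rw [e1, e2, e3]
    linear_combination (-((-1))) * hg
  have d023 : Del 1 0 0 g (-1) g (-1) g g ≠ 0 := by
    unfold Del
    intro h0
    have e1 : (-1) + (-2) * g = 0 := by linear_combination h0 - ((-1)) * hg
    linarith
  have h023 : Del 1 0 0 g (-1) g (-1) g g ^ 2 =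
      (3 * g + 2) / 2 * (2 * |D 1 0 g (-1) * D 1 0 (-1) g * D g (-1) (-1) g|) := by
    have e1 : Del 1 0 0 g (-1) g (-1) g g = (-1) + (-2) * g := by
      unfold Del
      linear_combination ((-1)) * hg
    have e2 : D 1 0 g (-1) * D 1 0 (-1) g * D g (-1) (-1) g = -((1) + (1) * g) := by
      unfold D
      linear_combination ((-1) + (-1) * g) * hg
    have e3 : |-((1) + (1) * g : ℝ)| = (1) + (1) * g := by
      rw [abs_neg]
      exact abs_of_pos (by linarith)
    rw [e1, e2, e3]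
    linear_combination (-((-1))) * hg
  have d024 : Del 1 0 0 g (-1) g 1 1 (g + 1) ≠ 0 := by
    unfold Del
    intro h0
    have e1 : (-1) + (-2) * g = 0 := by linear_combination h0 - (0) * hg
    linarith
  have h024 : Del 1 0 0 g (-1) g 1 1 (g + 1) ^ 2 =
      (3 * g + 2) / 2 * (2 * |D 1 0 g (-1) * D 1 0 1 1 * D g (-1) 1 1|) := by
    have e1 : Del 1 0 0 g (-1) g 1 1 (g + 1) = (-1) + (-2) * g := by
      unfold Del
      linear_combination (0) * hg
    have e2 : D 1 0 g (-1) * D 1 0 1 1 * D g (-1) 1 1 = -((1) + (1) * g) := by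
      unfold D
      linear_combination (0) * hg
    have e3 : |-((1) + (1) * g : ℝ)| = (1) + (1) * g := by
      rw [abs_neg]
      exact abs_of_pos (by linarith)
    rw [e1, e2, e3]
    linear_combination (-((-1))) * hg
  have h034 : Del 1 0 0 (-1) g g 1 1 (g + 1) ^ 2 ≤
      (3 * g + 2) / 2 * (2 * |D 1 0 (-1) g * D 1 0 1 1 * D (-1) g 1 1|) := by
    have e1 : Del 1 0 0 (-1) g g 1 1 (g + 1) = (1) + (1) * g := by
      unfold Del
      linear_combination ((1)) * hg
    have e2 : D 1 0 (-1) g * D 1 0 1 1 * D (-1) g 1 1 = -((1) + (2) * g) := by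
      unfold D
      linear_combination ((-1)) * hg
    have e3 : |-((1) + (2) * g : ℝ)| = (1) + (2) * g := by
      rw [abs_neg]
      exact abs_of_pos (by linarith)
    rw [e1, e2, e3]
    have e4 : (3 * g + 2) / 2 * (2 * ((1) + (2) * g)) - ((1) + (1) * g) ^ 2 = (6) + (10) * g := by
      linear_combination ((5)) * hg
    linarith
  have d123 : Del 0 1 0 g (-1) g (-1) g g ≠ 0 := by
    unfold Del
    intro h0
    have e1 : (-1) + (-2) * g = 0 := by linear_combination h0 - ((-1)) * hg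
    linarith
  have h123 : Del 0 1 0 g (-1) g (-1) g g ^ 2 =
      (3 * g + 2) / 2 * (2 * |D 0 1 g (-1) * D 0 1 (-1) g * D g (-1) (-1) g|) := by
    have e1 : Del 0 1 0 g (-1) g (-1) g g = (-1) + (-2) * g := by
      unfold Del
      linear_combination ((-1)) * hg
    have e2 : D 0 1 g (-1) * D 0 1 (-1) g * D g (-1) (-1) g = -((1) + (1) * g) := by
      unfold D
      linear_combination ((-1) + (-1) * g) * hg
    have e3 : |-((1) + (1) * g : ℝ)| = (1) + (1) * g := by
      rw [abs_neg]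
      exact abs_of_pos (by linarith)
    rw [e1, e2, e3]
    linear_combination (-((-1))) * hg
  have h124 : Del 0 1 0 g (-1) g 1 1 (g + 1) ^ 2 ≤
      (3 * g + 2) / 2 * (2 * |D 0 1 g (-1) * D 0 1 1 1 * D g (-1) 1 1|) := by
    have e1 : Del 0 1 0 g (-1) g 1 1 (g + 1) = (-1) + (-1) * g := by
      unfold Del
      linear_combination ((-1)) * hg
    have e2 : D 0 1 g (-1) * D 0 1 1 1 * D g (-1) 1 1 = ((1) + (2) * g) := by
      unfold D
      linear_combination ((1)) * hg
    have e3 : |((1) + (2) * g : ℝ)| = (1) + (2) * g := by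
      exact abs_of_pos (by linarith)
    rw [e1, e2, e3]
    have e4 : (3 * g + 2) / 2 * (2 * ((1) + (2) * g)) - ((-1) + (-1) * g) ^ 2 = (6) + (10) * g := by
      linear_combination ((5)) * hg
    linarith
  have d134 : Del 0 1 0 (-1) g g 1 1 (g + 1) ≠ 0 := by
    unfold Del
    intro h0
    have e1 : (1) + (2) * g = 0 := by linear_combination h0 - (0) * hg
    linarith
  have h134 : Del 0 1 0 (-1) g g 1 1 (g + 1) ^ 2 =
      (3 * g + 2) / 2 * (2 * |D 0 1 (-1) g * D 0 1 1 1 * D (-1) g 1 1|) := by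
    have e1 : Del 0 1 0 (-1) g g 1 1 (g + 1) = (1) + (2) * g := by
      unfold Del
      linear_combination (0) * hg
    have e2 : D 0 1 (-1) g * D 0 1 1 1 * D (-1) g 1 1 = ((1) + (1) * g) := by
      unfold D
      linear_combination (0) * hg
    have e3 : |((1) + (1) * g : ℝ)| = (1) + (1) * g := by
      exact abs_of_pos (by linarith)
    rw [e1, e2, e3]
    linear_combination (-((-1))) * hg
  have h234 : Del g (-1) g (-1) g g 1 1 (g + 1) ^ 2 ≤
      (3 * g + 2) / 2 * (2 * |D g (-1) (-1) g * D g (-1) 1 1 * D (-1) g 1 1|) := by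
    have e1 : Del g (-1) g (-1) g g 1 1 (g + 1) = (-1) + (-2) * g := by
      unfold Del
      linear_combination ((1) * g) * hg
    have e2 : D g (-1) (-1) g * D g (-1) 1 1 * D (-1) g 1 1 = -((3) + (5) * g) := by
      unfold D
      linear_combination ((-4) + (-3) * g + (-1) * g ^ 2) * hg
    have e3 : |-((3) + (5) * g : ℝ)| = (3) + (5) * g := by
      rw [abs_neg]
      exact abs_of_pos (by linarith)
    rw [e1, e2, e3]
    have e4 : (3 * g + 2) / 2 * (2 * ((3) + (5) * g)) - ((-1) + (-2) * g) ^ 2 = (16) + (26) * g := by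
      linear_combination ((11)) * hg
    linarith
  obtain ⟨L, h1, h2, h3, h4⟩ := ex_gen (N := 5) ![1, 0, g, (-1), 1] ![0, 1, (-1), g, 1]
    ![0, 0, g, g, (g + 1)] ((3 * g + 2) / 2)
    (by intro i; fin_cases i <;> simp)
    (by
      intro i j hij
      fin_cases i <;> fin_cases j <;> first
        | exact absurd hij (by decide)
        | (show D _ _ _ _ ≠ 0
           unfold D
           intro h0
           simp at h0 <;> nlinarith))
    (by
      intro i j k hij hjk
      fin_cases i <;> fin_cases j <;> fin_cases k <;> first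
        | exact absurd hij (by decide)
        | exact absurd hjk (by decide)
        | exact h012
        | exact h013
        | exact h014.le
        | exact h023.le
        | exact h024.le
        | exact h034
        | exact h123.le
        | exact h124
        | exact h134.le
        | exact h234)
    {{0, 1, 4}, {0, 2, 3}, {0, 2, 4}, {1, 2, 3}, {1, 3, 4}} ⟨_, Finset.mem_insert_self _ _⟩
    (by
      intro s hs
      simp only [Finset.mem_insert, Finset.mem_singleton] at hs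
      rcases hs with hs | hs | hs | hs | hs
      · exact ⟨0, 1, 4, by decide, by decide, hs, d014, h014⟩
      · exact ⟨0, 2, 3, by decide, by decide, hs, d023, h023⟩
      · exact ⟨0, 2, 4, by decide, by decide, hs, d024, h024⟩
      · exact ⟨1, 2, 3, by decide, by decide, hs, d123, h123⟩
      · exact ⟨1, 3, 4, by decide, by decide, hs, d134, h134⟩)
  refine ⟨L, (3 * g + 2) / 2, h1, h2, h3, le_trans (le_of_eq ?_) h4⟩
  decide

/-- `3 * card ≤ n * (n - 2)` turns the lower bound into an equality -/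
lemma ex_eq {n m : ℕ} (hm : n * (n - 2) < 3 * (m + 1))
    (h : ∃ L : Finset (Set (ℝ × ℝ)), ∃ A, L.card = n ∧ (∀ l ∈ L, IsLine l) ∧
      IsMaxArea L A ∧ m ≤ (maxTriples L A).card) :
    ∃ L : Finset (Set (ℝ × ℝ)), ∃ A : ℝ, L.card = n ∧ (∀ l ∈ L, IsLine l) ∧
      IsMaxArea L A ∧ (maxTriples L A).card = m := by
  obtain ⟨L, A, h1, h2, h3, h4⟩ := h
  have h5 := three_mul_le L h2 A h3
  rw [h1] at h5
  exact ⟨L, A, h1, h2, h3, by omega⟩

/-- three lines, one triangle of maximum area -/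
theorem ex3 : ∃ L : Finset (Set (ℝ × ℝ)), ∃ A : ℝ, L.card = 3 ∧ (∀ l ∈ L, IsLine l) ∧
    IsMaxArea L A ∧ (maxTriples L A).card = 1 := ex_eq (by norm_num) ex3_le

/-- four lines, two triangles of maximum area -/
theorem ex4 : ∃ L : Finset (Set (ℝ × ℝ)), ∃ A : ℝ, L.card = 4 ∧ (∀ l ∈ L, IsLine l) ∧
    IsMaxArea L A ∧ (maxTriples L A).card = 2 := ex_eq (by norm_num) ex4_le

/-- five lines (an affine regular pentagon), five triangles of maximum area -/
theorem ex5 : ∃ L : Finset (Set (ℝ × ℝ)), ∃ A : ℝ, L.card = 5 ∧ (∀ l ∈ L, IsLine l) ∧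
    IsMaxArea L A ∧ (maxTriples L A).card = 5 := ex_eq (by norm_num) ex5_le

end Pool.Agent.MP27bb56
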