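import Mathlib

/-!
# The link of a line in an arrangement (abstract form)

`a i`, `m i`: abscissa on the fixed line and (scaled) inverse slope of the line `i`.
-/

namespace MaxTri

/-- The hypotheses on the link of a line. -/
structure Lk {ι : Type*} (V : Finset ι) (a m : ι → ℝ) : Prop where
  hp : ∀ i ∈ V, ∀ j ∈ V, m i < m j → (a j - a i) ^ 2 ≤ m j - m i
  ht : ∀ i ∈ V, ∀ j ∈ V, ∀ k ∈ V, m i < m j → m j < m k →
    ((m k - m j) * (a j - a i) - (m j - m i) * (a k - a j)) ^ 2
      ≤ (m j - m i) * (m k - m j) * (m k - m i)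
  hi : ∀ i ∈ V, ∀ j ∈ V, a i = a j → m i = m j → i = j

/-- `i` is below `j` and the pair is extremal. -/
def Tg {ι : Type*} (a m : ι → ℝ) (i j : ι) : Prop :=
  m i < m j ∧ (a j - a i) ^ 2 = m j - m i

variable {ι : Type*} {V : Finset ι} {a m : ι → ℝ}

theorem Tg.ne {i j : ι} (h : Tg a m i j) : a j - a i ≠ 0 := by
  intro h0
  have := h.2
  rw [h0] at this
  have := h.1
  nlinarith

theorem Lk.mono {W : Finset ι} (h : Lk V a m) (hW : W ⊆ V) : Lk W a m :=
  ⟨fun i hi j hj => h.hp i (hW hi) j (hW hj),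
   fun i hi j hj k hk => h.ht i (hW hi) j (hW hj) k (hW hk),
   fun i hi j hj => h.hi i (hW hi) j (hW hj)⟩

/-- reflection `a → -a` -/
theorem Lk.refl_a (h : Lk V a m) : Lk V (fun i => - a i) m := by
  refine ⟨?_, ?_, ?_⟩
  · intro i hi j hj hm
    have := h.hp i hi j hj hm
    nlinarith
  · intro i hi j hj k hk h1 h2
    have := h.ht i hi j hj k hk h1 h2
    nlinarith
  · intro i hi j hj h1 h2
    exact h.hi i hi j hj (by linarith) h2

theorem Tg.refl_a {i j : ι} (h : Tg a m i j) : Tg (fun i => - a i) m i j := by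
  refine ⟨h.1, ?_⟩
  have := h.2
  simp only
  nlinarith

/-- reflection `m → -m` -/
theorem Lk.refl_m (h : Lk V a m) : Lk V a (fun i => - m i) := by
  refine ⟨?_, ?_, ?_⟩
  · intro i hi j hj hm
    have := h.hp j hj i hi (by linarith)
    nlinarith
  · intro i hi j hj k hk h1 h2
    have := h.ht k hk j hj i hi (by linarith) (by linarith)
    nlinarith
  · intro i hi j hj h1 h2
    exact h.hi i hi j hj h1 (by linarith)

theorem Tg.refl_m {i j : ι} (h : Tg a m i j) : Tg a (fun i => - m i) j i := by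
  refine ⟨by have := h.1; simp only; linarith, ?_⟩
  have := h.2
  simp only
  nlinarith

/-- In between. -/
theorem Lk.between (h : Lk V a m) {i j k : ι} (hi : i ∈ V) (hj : j ∈ V) (hk : k ∈ V)
    (ht : Tg a m i j) (h1 : m i < m k) (h2 : m k < m j) : 0 < (a k - a i) * (a j - a k) := by
  have p1 := h.hp i hi k hk h1
  have p2 := h.hp k hk j hj h2
  have e := ht.2
  have q : 0 ≤ (a k - a i) * (a j - a k) := by nlinarith
  rcases q.lt_or_eq with q | q
  · exact q
  · exfalso
    rcases mul_eq_zero.mp q.symm with q | q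
    · have : a k = a i := by linarith
      rw [this] at p2
      linarith
    · have : a k = a j := by linarith
      rw [this] at p1
      linarith

/-- Above: `k` above `j` cannot be far behind. -/
theorem Lk.above (h : Lk V a m) {i j k : ι} (hi : i ∈ V) (hj : j ∈ V) (hk : k ∈ V)
    (ht : Tg a m i j) (h1 : m j < m k) :
    0 < (a j - a i) ^ 2 + 2 * ((a k - a j) * (a j - a i)) := by
  have t := h.ht i hi j hj k hk ht.1 h1
  have e := ht.2
  have hne := ht.ne
  have hpos : 0 < (a j - a i) ^ 2 := by positivity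
  set α := a j - a i with hα
  set β := a k - a j with hβ
  have hq : 0 < m k - m j := by linarith
  set q := m k - m j with hqq
  have e2 : m k - m i = q + α ^ 2 := by rw [hqq]; linarith
  rw [e2, ← e] at t
  -- (q α - α² β)² ≤ α² q (q + α²)
  have t2 : α ^ 2 * (q - α * β) ^ 2 ≤ α ^ 2 * (q * (q + α ^ 2)) := by nlinarith
  have t3 : (q - α * β) ^ 2 ≤ q * (q + α ^ 2) := le_of_mul_le_mul_left t2 hpos
  have t4 : (α * β) ^ 2 ≤ q * (α ^ 2 + 2 * (β * α)) := by nlinarith
  have t5 : 0 ≤ q * (α ^ 2 + 2 * (β * α)) := le_trans (sq_nonneg _) t4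
  have t6 : 0 ≤ α ^ 2 + 2 * (β * α) := by
    by_contra hc
    push Not at hc
    have := mul_neg_of_pos_of_neg hq hc
    linarith
  rcases t6.lt_or_eq with t6 | t6
  · exact t6
  · exfalso
    rw [← t6, mul_zero] at t4
    have : α * β = 0 := by nlinarith [sq_nonneg (α * β)]
    have : β * α = 0 := by linarith [mul_comm α β]
    rw [this] at t6
    linarith

/-- Below: `k` below `i`. -/
theorem Lk.below (h : Lk V a m) {i j k : ι} (hi : i ∈ V) (hj : j ∈ V) (hk : k ∈ V)
    (ht : Tg a m i j) (h1 : m k < m i) :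
    0 < (a j - a i) ^ 2 + 2 * ((a i - a k) * (a j - a i)) := by
  have := h.refl_m.above hj hi hk ht.refl_m (by linarith)
  nlinarith

/-- no vertex is an upper and a lower end -/
theorem Lk.no_two (h : Lk V a m) {i j k : ι} (hi : i ∈ V) (hj : j ∈ V) (hk : k ∈ V)
    (h1 : Tg a m i j) (h2 : Tg a m j k) : False := by
  have p := h.hp i hi k hk (h1.1.trans h2.1)
  have t := h.ht i hi j hj k hk h1.1 h2.1
  have e1 := h1.2
  have e2 := h2.2
  have n1 := h1.ne
  have n2 := h2.ne
  set α := a j - a i with hα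
  set β := a k - a j with hβ
  have e3 : m k - m i = α ^ 2 + β ^ 2 := by linarith
  have e4 : a k - a i = α + β := by rw [hα, hβ]; ring
  rw [e4, e3] at p
  rw [← e1, ← e2, e3] at t
  have s1 : α * β ≤ 0 := by nlinarith
  have hA : 0 < α ^ 2 := by positivity
  have hB : 0 < β ^ 2 := by positivity
  have t2 : (α ^ 2 * β ^ 2) * (β - α) ^ 2 ≤ (α ^ 2 * β ^ 2) * (α ^ 2 + β ^ 2) := by nlinarith
  have t3 : (β - α) ^ 2 ≤ α ^ 2 + β ^ 2 := le_of_mul_le_mul_left t2 (mul_pos hA hB)
  have s2 : 0 ≤ α * β := by nlinarith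
  have : α * β = 0 := le_antisymm s1 s2
  rcases mul_eq_zero.mp this with h0 | h0
  · exact n1 h0
  · exact n2 h0

/-- Monge step at a top lower vertex `i`. -/
theorem Lk.side (h : Lk V a m) {i i' j j' : ι} (hi : i ∈ V) (hi' : i' ∈ V) (_hj : j ∈ V)
    (hj' : j' ∈ V) (h1 : Tg a m i j) (h2 : Tg a m i j') (hlt : a j < a j')
    (h3 : Tg a m i' j) (hne : i' ≠ i) (hle : m i' ≤ m i) : a i < a i' := by
  have p := h.hp i' hi' j' hj' (lt_of_le_of_lt hle h2.1)
  have e1 := h1.2
  have e2 := h2.2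
  have e3 := h3.2
  have q : 0 ≤ (a i' - a i) * (a j' - a j) := by nlinarith
  have q2 : 0 ≤ a i' - a i := by
    by_contra hc
    push Not at hc
    have := mul_neg_of_neg_of_pos hc (sub_pos.mpr hlt)
    linarith
  rcases q2.lt_or_eq with q2 | q2
  · linarith
  · exfalso
    have e : a i' = a i := by linarith
    rw [e] at e3
    exact hne (h.hi i' hi' i hi e (by linarith))

theorem Lk.side' (h : Lk V a m) {i i' j j' : ι} (hi : i ∈ V) (hi' : i' ∈ V) (hj : j ∈ V)
    (hj' : j' ∈ V) (h1 : Tg a m i j) (h2 : Tg a m i j') (hlt : a j < a j')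
    (h3 : Tg a m i' j') (hne : i' ≠ i) (hle : m i' ≤ m i) : a i' < a i := by
  have := h.refl_a.side hi hi' hj' hj h2.refl_a h1.refl_a (by linarith) h3.refl_a
    hne hle
  linarith

theorem Lk.a_ne (h : Lk V a m) {i j j' : ι} (hj : j ∈ V) (hj' : j' ∈ V)
    (h1 : Tg a m i j) (h2 : Tg a m i j') (hne : j ≠ j') : a j ≠ a j' := by
  intro e
  have e1 := h1.2
  have e2 := h2.2
  rw [e] at e1
  exact hne (h.hi j hj j' hj' e (by linarith))

/-- minimum degree at least two -/
def Deg2 (V : Finset ι) (a m : ι → ℝ) : Prop :=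
  ∀ v ∈ V, ∀ w, ∃ w' ∈ V, w' ≠ w ∧ (Tg a m v w' ∨ Tg a m w' v)

theorem Deg2.refl_a (h : Deg2 V a m) : Deg2 V (fun i => - a i) m := by
  intro v hv w
  obtain ⟨w', hw', hne, h1⟩ := h v hv w
  exact ⟨w', hw', hne, h1.imp Tg.refl_a Tg.refl_a⟩

theorem Deg2.refl_m (h : Deg2 V a m) : Deg2 V a (fun i => - m i) := by
  intro v hv w
  obtain ⟨w', hw', hne, h1⟩ := h v hv w
  refine ⟨w', hw', hne, ?_⟩
  rcases h1 with h1 | h1
  · exact Or.inr h1.refl_m
  · exact Or.inl h1.refl_m

theorem Lk.other_up (h : Lk V a m) (hd : Deg2 V a m) {i j : ι} (hi : i ∈ V) (hj : j ∈ V)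
    (h1 : Tg a m i j) : ∃ j' ∈ V, j' ≠ j ∧ Tg a m i j' := by
  obtain ⟨w', hw', hne, h2⟩ := hd i hi j
  rcases h2 with h2 | h2
  · exact ⟨w', hw', hne, h2⟩
  · exact (h.no_two hw' hi hj h2 h1).elim

theorem Lk.other_down (h : Lk V a m) (hd : Deg2 V a m) {i j : ι} (hi : i ∈ V) (hj : j ∈ V)
    (h1 : Tg a m i j) : ∃ i' ∈ V, i' ≠ i ∧ Tg a m i' j := by
  obtain ⟨w', hw', hne, h2⟩ := hd j hj i
  rcases h2 with h2 | h2
  · exact (h.no_two hi hj hw' h1 h2).elim
  · exact ⟨w', hw', hne, h2⟩

/-- tie excluded, first side -/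
theorem Lk.tie_aux (h : Lk V a m) (hd : Deg2 V a m) {i j j' i' : ι} (hi : i ∈ V) (hj : j ∈ V)
    (hj' : j' ∈ V) (hi' : i' ∈ V)
    (htop : ∀ x ∈ V, ∀ y ∈ V, Tg a m x y → m x ≤ m i)
    (h1 : Tg a m i j) (h2 : Tg a m i j') (hlt : a j < a j') (h3 : Tg a m i' j)
    (hne : i' ≠ i) (htie : m i' = m i) : False := by
  have hlt1 : a i < a i' := h.side hi hi' hj hj' h1 h2 hlt h3 hne htie.le
  have e1 := h1.2
  have e2 := h2.2
  have e3 := h3.2
  -- a j is the midpoint
  have hmid : 2 * a j = a i + a i' := by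
    have : (a j - a i - (a j - a i')) * (a j - a i + (a j - a i')) = 0 := by
      rw [htie] at e3
      nlinarith
    rcases mul_eq_zero.mp this with q | q
    · linarith
    · linarith
  obtain ⟨ja, hja, hjane, h4⟩ := h.other_up hd hi' hj h3
  have e4 := h4.2
  have hja_lt : a ja < a j := by
    rcases lt_trichotomy (a ja) (a j) with q | q | q
    · exact q
    · exact (h.a_ne hja hj h4 h3 hjane q).elim
    · -- then a i' < a i
      have := h.side hi' hi hj hja h3 h4 q h1 (Ne.symm hne) htie.ge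
      linarith
  obtain ⟨i3, hi3, hi3ne, h5⟩ := h.other_down hd hi' hja h4
  have hi3le : m i3 ≤ m i' := by rw [htie]; exact htop i3 hi3 ja hja h5
  have hi3a : a i' < a i3 := h.side hi' hi3 hja hj h4 h3 hja_lt h5 hi3ne hi3le
  have hi3lt : m i3 < m i' := by
    rcases hi3le.lt_or_eq with q | q
    · exact q
    · exfalso
      have e5 := h5.2
      have : (a ja - a i' - (a ja - a i3)) * (a ja - a i' + (a ja - a i3)) = 0 := by
        rw [q] at e5
        nlinarith
      rcases mul_eq_zero.mp this with r | r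
      · linarith
      · linarith
  have b1 := h.below hi hj' hi3 h2 (by rw [← htie]; exact hi3lt)
  have hup : m j < m j' := by nlinarith
  have b2 := h.above hi' hj hj' h3 hup
  -- b1 : 0 < s^2 + 2 (a i - a i3) s, s = a j' - a i > 0
  have hs : 0 < a j' - a i := by linarith
  have c1 : 0 < (a j' - a i) + 2 * (a i - a i3) := by
    by_contra hc
    push Not at hc
    have := mul_nonpos_of_nonneg_of_nonpos hs.le hc
    nlinarith
  have hs2 : a j - a i' < 0 := by linarith
  have c2 : (a j - a i') + 2 * (a j' - a j) < 0 := by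
    by_contra hc
    push Not at hc
    have := mul_nonpos_of_nonpos_of_nonneg hs2.le hc
    nlinarith
  linarith

theorem Lk.tie (h : Lk V a m) (hd : Deg2 V a m) {i j j' i' : ι} (hi : i ∈ V) (hj : j ∈ V)
    (hj' : j' ∈ V) (hi' : i' ∈ V)
    (htop : ∀ x ∈ V, ∀ y ∈ V, Tg a m x y → m x ≤ m i)
    (h1 : Tg a m i j) (h2 : Tg a m i j') (hjj : j ≠ j') (h3 : Tg a m i' j)
    (hne : i' ≠ i) : m i' < m i := by
  have hle := htop i' hi' j hj h3
  rcases hle.lt_or_eq with q | q
  · exact q
  · exfalso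
    rcases lt_or_gt_of_ne (h.a_ne hj hj' h1 h2 hjj) with r | r
    · exact h.tie_aux hd hi hj hj' hi' htop h1 h2 r h3 hne q
    · refine h.refl_a.tie_aux hd.refl_a hi hj hj' hi' ?_ h1.refl_a h2.refl_a
        (by linarith) h3.refl_a hne q
      intro x hx y hy hxy
      refine htop x hx y hy ⟨hxy.1, ?_⟩
      have := hxy.2
      simp only at this
      nlinarith

/-- The top lower vertex. -/
theorem Lk.top (h : Lk V a m) (hd : Deg2 V a m) (hne : V.Nonempty) :
    ∃ i ∈ V, ∃ j ∈ V, ∃ j' ∈ V, Tg a m i j ∧ Tg a m i j' ∧ a j < a i ∧ a i - a j = a j' - a i ∧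
      m j' = m j ∧ (∀ x ∈ V, ∀ y ∈ V, Tg a m x y → m x ≤ m i) := by
  classical
  set Lo := V.filter (fun i => ∃ j ∈ V, Tg a m i j) with hLo
  have hLone : Lo.Nonempty := by
    obtain ⟨v, hv⟩ := hne
    obtain ⟨w, hw, -, h1⟩ := hd v hv v
    rcases h1 with h1 | h1
    · exact ⟨v, by simp [hLo, hv]; exact ⟨w, hw, h1⟩⟩
    · exact ⟨w, by simp [hLo, hw]; exact ⟨v, hv, h1⟩⟩
  obtain ⟨i, hiLo, hmax⟩ := Finset.exists_max_image Lo m hLone
  have hi : i ∈ V := (Finset.mem_filter.mp hiLo).1
  obtain ⟨j0, hj0, h0⟩ := (Finset.mem_filter.mp hiLo).2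
  have htop : ∀ x ∈ V, ∀ y ∈ V, Tg a m x y → m x ≤ m i := by
    intro x hx y hy hxy
    exact hmax x (Finset.mem_filter.mpr ⟨hx, y, hy, hxy⟩)
  obtain ⟨j1, hj1, hj1ne, h1⟩ := h.other_up hd hi hj0 h0
  -- order the two
  obtain ⟨j, hj, j', hj', t1, t2, hlt⟩ : ∃ j ∈ V, ∃ j' ∈ V, Tg a m i j ∧ Tg a m i j' ∧
      a j < a j' := by
    rcases lt_or_gt_of_ne (h.a_ne hj0 hj1 h0 h1 (Ne.symm hj1ne)) with r | r
    · exact ⟨j0, hj0, j1, hj1, h0, h1, r⟩
    · exact ⟨j1, hj1, j0, hj0, h1, h0, r⟩
  have hjj : j ≠ j' := by rintro rfl; exact lt_irrefl _ hlt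
  obtain ⟨i1, hi1, hi1ne, t3⟩ := h.other_down hd hi hj t1
  obtain ⟨i2, hi2, hi2ne, t4⟩ := h.other_down hd hi hj' t2
  have l1 : m i1 < m i := h.tie hd hi hj hj' hi1 htop t1 t2 hjj t3 hi1ne
  have l2 : m i2 < m i := h.tie hd hi hj' hj hi2 htop t2 t1 (Ne.symm hjj) t4 hi2ne
  have s1 : a i < a i1 := h.side hi hi1 hj hj' t1 t2 hlt t3 hi1ne l1.le
  have s2 : a i2 < a i := h.side' hi hi2 hj hj' t1 t2 hlt t4 hi2ne l2.le
  have b1 := h.between hi1 hj hi t3 l1 t1.1
  have b2 := h.between hi2 hj' hi t4 l2 t2.1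
  have c1 : a j < a i := by
    by_contra hc
    push Not at hc
    have := mul_nonpos_of_nonpos_of_nonneg (sub_nonpos.mpr s1.le) (sub_nonneg.mpr hc)
    linarith
  have c2 : a i < a j' := by
    by_contra hc
    push Not at hc
    have := mul_nonpos_of_nonneg_of_nonpos (sub_nonneg.mpr s2.le) (sub_nonpos.mpr hc)
    linarith
  have hm : m j' = m j := by
    rcases lt_trichotomy (m j') (m j) with q | q | q
    · exfalso
      have := h.between hi hj hj' t1 t2.1 q
      have := mul_nonpos_of_nonneg_of_nonpos (sub_nonneg.mpr c2.le)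
        (sub_nonpos.mpr (c1.trans c2).le)
      linarith
    · exact q
    · exfalso
      have := h.between hi hj' hj t2 t1.1 q
      have := mul_nonpos_of_nonpos_of_nonneg (sub_nonpos.mpr c1.le)
        (sub_nonneg.mpr (c1.trans c2).le)
      linarith
  have e1 := t1.2
  have e2 := t2.2
  refine ⟨i, hi, j, hj, j', hj', t1, t2, c1, ?_, hm, htop⟩
  have : (a i - a j - (a j' - a i)) * (a i - a j + (a j' - a i)) = 0 := by
    rw [hm] at e2
    nlinarith
  rcases mul_eq_zero.mp this with q | q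
  · linarith
  · linarith

/-- A nonempty link has a vertex of degree at most one. -/
theorem Lk.not_deg2 (h : Lk V a m) (hne : V.Nonempty) : ¬ Deg2 V a m := by
  intro hd
  obtain ⟨i, hi, j, hj, j', hj', t1, t2, c1, hx, hm, htop⟩ := h.top hd hne
  obtain ⟨J, hJ, p, hp, p', hp', r1, r2, d1, hy, hm', hbot⟩ := h.refl_m.top hd.refl_m hne
  have hmp : m p' = m p := by linarith
  -- back to a, m
  have u1 : Tg a m p J := by
    refine ⟨by have := r1.1; simp only at this; linarith, ?_⟩
    have := r1.2; simp only at this; nlinarith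
  have u2 : Tg a m p' J := by
    refine ⟨by have := r2.1; simp only at this; linarith, ?_⟩
    have := r2.2; simp only at this; nlinarith
  have hbot' : ∀ x ∈ V, ∀ y ∈ V, Tg a m x y → m J ≤ m y := by
    intro x hx y hy hxy
    have := hbot y hy x hx hxy.refl_m
    linarith
  have k1 : m J ≤ m j := hbot' i hi j hj t1
  have k2 : m p ≤ m i := htop p hp J hJ u1
  have e1 := t1.2
  have e3 := u1.2
  set x := a i - a j with hxdef
  set y := a J - a p with hydef
  have hx0 : 0 < x := by linarith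
  have hy0 : 0 < y := by linarith
  have hpp : p ≠ p' := by
    rintro rfl
    linarith
  -- width estimates
  have T2 : m p < m i → 2 * y < x := by
    intro hlt
    have b1 := h.below hi hj' hp t2 hlt
    have b2 := h.below hi hj' hp' t2 (by rw [hmp]; exact hlt)
    have b3 := h.below hi hj hp t1 hlt
    have b4 := h.below hi hj hp' t1 (by rw [hmp]; exact hlt)
    -- a p' < a i + x/2, a p > a i - x/2
    have w1 : a p' < a i + x / 2 := by
      have hs : a j' - a i = x := by linarith
      rw [hs] at b2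
      by_contra hc
      push Not at hc
      have : x * (x + 2 * (a i - a p')) ≤ 0 :=
        mul_nonpos_of_nonneg_of_nonpos hx0.le (by linarith)
      nlinarith
    have w2 : a i - x / 2 < a p := by
      have hs : a j - a i = - x := by linarith
      rw [hs] at b3
      by_contra hc
      push Not at hc
      have : x * (x - 2 * (a i - a p)) ≤ 0 :=
        mul_nonpos_of_nonneg_of_nonpos hx0.le (by linarith)
      nlinarith
    linarith
  have T1 : m J < m j → 2 * x < y := by
    intro hlt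
    have hlt' : m J < m j' := by rw [hm]; exact hlt
    have b1 := h.above hp' hJ hj' u2 hlt'
    have b3 := h.above hp hJ hj u1 hlt
    have w1 : a j' < a J + y / 2 := by
      have hs : a J - a p' = - y := by linarith
      rw [hs] at b1
      by_contra hc
      push Not at hc
      have : y * (y - 2 * (a j' - a J)) ≤ 0 :=
        mul_nonpos_of_nonneg_of_nonpos hy0.le (by linarith)
      nlinarith
    have w2 : a J - y / 2 < a j := by
      have hs : a J - a p = y := by linarith
      rw [hs] at b3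
      by_contra hc
      push Not at hc
      have : y * (y + 2 * (a j - a J)) ≤ 0 :=
        mul_nonpos_of_nonneg_of_nonpos hy0.le (by linarith)
      nlinarith
    linarith
  have ex : x ^ 2 = m j - m i := by
    have : (a j - a i) = - x := by linarith
    rw [this] at e1
    linarith [e1, neg_sq x]
  rcases k1.lt_or_eq with k1 | k1
  · rcases k2.lt_or_eq with k2 | k2
    · have := T1 k1
      have := T2 k2
      linarith
    · have t := T1 k1
      -- y^2 < x^2
      have : y ^ 2 < x ^ 2 := by rw [ex, e3]; linarith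
      nlinarith
  · rcases k2.lt_or_eq with k2 | k2
    · have t := T2 k2
      have : x ^ 2 < y ^ 2 := by rw [ex, e3]; linarith
      nlinarith
    · -- p, p' both top, common neighbour J
      obtain ⟨j3, hj3, hj3ne, u3⟩ := h.other_up hd hp hJ u1
      have := h.tie hd hp hJ hj3 hp' (by rw [k2]; exact htop) u1 u3 (Ne.symm hj3ne) u2
        (Ne.symm hpp)
      linarith

/-- **Link theorem.** -/
theorem link_card [DecidableEq ι] (n : ℕ) : ∀ (V : Finset ι), V.card = n → Lk V a m →
    ∀ (E : Finset (ι × ι)), (∀ e ∈ E, e.1 ∈ V ∧ e.2 ∈ V ∧ Tg a m e.1 e.2) → E.card ≤ n - 1 := by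
  classical
  induction n with
  | zero =>
    intro V hV _ E hE
    have hV0 : V = ∅ := Finset.card_eq_zero.mp hV
    subst hV0
    have : E = ∅ := by
      rw [Finset.eq_empty_iff_forall_notMem]
      intro e he
      exact absurd (hE e he).1 (Finset.notMem_empty _)
    simp [this]
  | succ n ih =>
    intro V hV h E hE
    have hne : V.Nonempty := by
      rw [← Finset.card_pos, hV]; exact Nat.succ_pos n
    have hnd := h.not_deg2 hne
    unfold Deg2 at hnd
    push Not at hnd
    obtain ⟨v, hv, w, hw⟩ := hnd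
    -- all partners of v equal w
    have hw' : ∀ w' ∈ V, (Tg a m v w' ∨ Tg a m w' v) → w' = w := by
      intro w' hw'V ht
      by_contra hcon
      have := hw w' hw'V hcon
      rcases ht with ht | ht
      · exact this.1 ht
      · exact this.2 ht
    set E1 := E.filter (fun e => e.1 ≠ v ∧ e.2 ≠ v) with hE1
    set E2 := E.filter (fun e => ¬ (e.1 ≠ v ∧ e.2 ≠ v)) with hE2
    have hsplit : E1.card + E2.card = E.card := Finset.card_filter_add_card_filter_not _
    have hc1 : E1.card ≤ n - 1 := by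
      refine ih (V.erase v) (by rw [Finset.card_erase_of_mem hv, hV]; rfl)
        (h.mono (Finset.erase_subset _ _)) E1 ?_
      intro e he
      rw [hE1, Finset.mem_filter] at he
      obtain ⟨he, h1, h2⟩ := he
      obtain ⟨q1, q2, q3⟩ := hE e he
      exact ⟨Finset.mem_erase.mpr ⟨h1, q1⟩, Finset.mem_erase.mpr ⟨h2, q2⟩, q3⟩
    have hc2 : E2.card ≤ 1 := by
      rw [Finset.card_le_one]
      intro e he f hf
      rw [hE2, Finset.mem_filter] at he hf
      obtain ⟨he, he'⟩ := he
      obtain ⟨hf, hf'⟩ := hf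
      obtain ⟨q1, q2, q3⟩ := hE e he
      obtain ⟨r1, r2, r3⟩ := hE f hf
      have he'' : e.1 = v ∨ e.2 = v := by tauto
      have hf'' : f.1 = v ∨ f.2 = v := by tauto
      rcases he'' with he'' | he'' <;> rcases hf'' with hf'' | hf''
      · have a1 := hw' e.2 q2 (Or.inl (he'' ▸ q3))
        have a2 := hw' f.2 r2 (Or.inl (hf'' ▸ r3))
        exact Prod.ext (he''.trans hf''.symm) (a1.trans a2.symm)
      · have a1 := hw' e.2 q2 (Or.inl (he'' ▸ q3))
        have a2 := hw' f.1 r1 (Or.inr (hf'' ▸ r3))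
        exact (h.no_two r1 hv q2 (hf'' ▸ r3) (he'' ▸ q3)).elim
      · have a1 := hw' e.1 q1 (Or.inr (he'' ▸ q3))
        exact (h.no_two q1 hv r2 (he'' ▸ q3) (hf'' ▸ r3)).elim
      · have a1 := hw' e.1 q1 (Or.inr (he'' ▸ q3))
        have a2 := hw' f.1 r1 (Or.inr (hf'' ▸ r3))
        exact Prod.ext (a1.trans a2.symm) (he''.trans hf''.symm)
    rcases Nat.eq_zero_or_pos n with hn | hn
    · -- V = {v}: no edges
      subst hn
      have hE0 : E = ∅ := by
        rw [Finset.eq_empty_iff_forall_notMem]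
        intro e he
        obtain ⟨q1, q2, q3⟩ := hE e he
        have hV1 : V = {v} := by
          obtain ⟨z, hz⟩ := Finset.card_eq_one.mp hV
          rw [hz] at hv
          rw [hz, Finset.mem_singleton.mp hv]
        rw [hV1, Finset.mem_singleton] at q1 q2
        rw [q1, q2] at q3
        exact lt_irrefl _ q3.1
      simp [hE0]
    · omega

end MaxTri
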